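import Pool.Agent.Helper68.ES.St5

/-!
# Project ES (MP_cb927e_an), module GDC: the good classes at a point
-/

set_option autoImplicit false

open MeasureTheory Set Filter Topology
open scoped ENNReal RealInnerProductSpace

namespace Pool.Agent.Helper51.ES

open Pool.Agent.Helper68.LM (Pl BB Bd Av HL ft fm DQ)
open Pool.Agent.Helper20.RG
open Pool.Agent.Helper20.RL (RQ Rich BM Fml Hit)
open Pool.Agent.Helper68.EP
open Pool.Agent.Helper68.ES

namespace GDC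

/-- the numbers -/
theorem nums (P : Par) (e : ℝ) (he : 0 < e) (hes : 8 * e ≤ P.s - 1) :
    ∃ u₀ : ℕ, 1 ≤ u₀ ∧ ∀ (R Y β : ℤ) (w q i : ℕ), u₀ ≤ w → Cfg P.p e R Y β w q i →
      6 ≤ q ∧ w ≤ 2 ^ (q - 1) ∧ 4 ≤ mb i β ∧ 4 * DD P w < th i := by
  have hs := P.hs
  have hsp := P.hsp
  have hp := P.hp
  obtain ⟨a, ha⟩ : ∃ a : ℝ, a = 7 / 8 * (P.s - 1) := ⟨_, rfl⟩
  have ha0 : 0 < a := by rw [ha]; linarith
  have hr : 1 < (2 : ℝ) ^ a := Real.one_lt_rpow (by norm_num) ha0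
  have hlim := tendsto_pow_const_div_const_pow_of_one_lt 1 hr
  have hev : ∀ᶠ w : ℕ in atTop, (w : ℝ) ^ 1 / ((2 : ℝ) ^ a) ^ w < 1 / 4 :=
    hlim.eventually (gt_mem_nhds (by norm_num))
  have hev2 : ∀ᶠ w : ℕ in atTop, 9 / a ≤ (w : ℝ) :=
    tendsto_natCast_atTop_atTop.eventually (eventually_ge_atTop _)
  obtain ⟨u₁, hu₁⟩ := eventually_atTop.1 (hev.and (hev2.and (eventually_ge_atTop 8)))
  refine ⟨max u₁ 1, le_max_right _ _, ?_⟩
  intro R Y β w q i hw hC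
  obtain ⟨h1, h2, h3⟩ := hu₁ w (le_trans (le_max_left _ _) hw)
  have h2' : 9 ≤ a * w := by
    rw [div_le_iff₀ ha0] at h2
    linarith
  have h3' : (8 : ℝ) ≤ w := by exact_mod_cast h3
  have h4 : 4 * (w : ℝ) < (2 : ℝ) ^ (a * w) := by
    rw [pow_one, div_lt_iff₀ (by positivity), ← Real.rpow_natCast, ← Real.rpow_mul (by norm_num)] at h1
    linarith
  have hw0 : (0 : ℝ) < w := by linarith
  have hadm := hC.adm
  unfold sz at hadm
  have hR := neg_abs_le (R : ℝ)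
  have hY := neg_abs_le (Y : ℝ)
  have hY2 := le_abs_self (Y : ℝ)
  have hβ := neg_abs_le (β : ℝ)
  have hR0 := abs_nonneg (R : ℝ)
  have hY0 := abs_nonneg (Y : ℝ)
  have hβ0 := abs_nonneg (β : ℝ)
  have hqr : (q : ℝ) = (⌊(P.p - 1) * w⌋ : ℝ) + R := by exact_mod_cast hC.hq
  have hir : (i : ℝ) = (⌊(w : ℝ) / P.p⌋ : ℝ) + Y := by exact_mod_cast hC.hi
  have hf1 := Int.sub_one_lt_floor ((P.p - 1) * (w : ℝ))
  have hf2 := Int.sub_one_lt_floor ((w : ℝ) / P.p)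
  have hf3 := Int.floor_le ((w : ℝ) / P.p)
  have hew : e * w ≤ (P.s - 1) / 8 * w := by nlinarith
  have hq : a * w - 1 < (q : ℝ) := by
    have : a * w ≤ (P.p - 1) * w - e * w := by
      rw [ha]
      nlinarith
    linarith
  have hi2 : (i : ℝ) ≤ P.s * w - 9 := by
    have h5 : (w : ℝ) / P.p ≤ w := div_le_self hw0.le (by linarith)
    have h6 : (P.s - 1) * w = a * w + (P.s - 1) / 8 * w := by
      rw [ha]; ring
    linarith
  have hib : (2 : ℝ) < (i : ℝ) + β + 0 := by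
    have h5 : (w : ℝ) / 2 ≤ (w : ℝ) / P.p := div_le_div_of_nonneg_left hw0.le (by linarith) (by linarith)
    have h6 : e * w ≤ 1 / 8 * w := by nlinarith
    linarith
  refine ⟨?_, ?_, ?_, ?_⟩
  · have : (6 : ℝ) < q := by linarith
    have h7 : 6 < q := by exact_mod_cast this
    omega
  · have h5 : (w : ℝ) ≤ ((2 ^ (q - 1) : ℕ) : ℝ) := by
      have hq1 : 1 ≤ q := by
        have : (0 : ℝ) < q := by linarith
        have : 0 < q := by exact_mod_cast this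
        omega
      rw [Nat.cast_pow, Nat.cast_ofNat, ← Real.rpow_natCast, Nat.cast_sub hq1]
      have h6 : (2 : ℝ) ^ (a * w - 2) ≤ (2 : ℝ) ^ ((q : ℝ) - (1 : ℕ)) :=
        Real.rpow_le_rpow_of_exponent_le (by norm_num) (by push_cast; linarith)
      have h7 : (2 : ℝ) ^ (a * w - 2) = (2 : ℝ) ^ (a * w) / 4 := by
        rw [Real.rpow_sub (by norm_num)]
        norm_num
      rw [h7] at h6
      exact le_trans (by linarith) h6
    exact_mod_cast h5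
  · have h5 : (2 : ℤ) < (i : ℤ) + β := by
      have : (2 : ℝ) < (i : ℝ) + β := by linarith
      exact_mod_cast this
    unfold mb
    calc (4 : ℝ) = (2 : ℝ) ^ (2 : ℤ) := by norm_num
      _ ≤ (2 : ℝ) ^ ((i : ℤ) + β) := zpow_le_zpow_right₀ (by norm_num) h5.le
  · unfold DD th
    have h5 : (2 : ℝ) ^ (-(i : ℤ)) = (2 : ℝ) ^ (-(i : ℝ)) := by
      rw [← Real.rpow_intCast]
      push_cast
      rfl
    rw [h5]
    have h6 : (2 : ℝ) ^ (9 - P.s * (w : ℝ)) ≤ (2 : ℝ) ^ (-(i : ℝ)) :=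
      Real.rpow_le_rpow_of_exponent_le (by norm_num) (by linarith)
    have h7 : (2 : ℝ) ^ (9 - P.s * (w : ℝ)) = 512 * (2 : ℝ) ^ (-(P.s * (w : ℝ))) := by
      rw [sub_eq_add_neg, Real.rpow_add (by norm_num)]
      norm_num
    rw [h7] at h6
    have h8 : (0 : ℝ) < (2 : ℝ) ^ (-(P.s * (w : ℝ))) := by positivity
    linarith

/-- monotonicity of `ell` -/
theorem anti {P : Par} {Δ : Dat} (hSy : Sy P Δ) (θ : ℝ) : Antitone (Δ.ell θ) :=
  antitone_nat_of_succ_le (hSy.mono θ)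

/-- the good classes -/
theorem goodw (hEFB : StEFB) (hXW : StXW) {P : Par} {Δ : Dat} {ct : ℕ → ℕ → Pl} {β : ℤ}
    {w q i : ℕ} {k : ℤ} {x : Pl} {E : Set Pl} {θ K al : ℝ} (hSy : Sy P Δ) (hw1 : 1 ≤ w)
    (hq : 6 ≤ q) (hwq : w ≤ 2 ^ (q - 1)) (hm : 4 ≤ mb i β) (hD : 4 * DD P w < th i)
    (N : Finset ℕ) (hN : ∀ j ∈ N, j ∈ Hs Δ ct w k (th i) (Eg E (DD P w) q k) x ∧
      |Δ.sl w j - θ| ≤ (2 : ℝ) ^ (-((2 ^ (q - 1) : ℕ) : ℤ)))
    (hNc : 3 / 4 * mb i β ≤ (N.card : ℝ)) (hhi : hn P Δ ct w q i k E x < 2 * mb i β)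
    (hsum : ∑ κ ∈ Finset.Icc 1 q, (2 : ℝ) ^ ((q : ℤ) - 2 * κ) * Δ.ell θ (2 ^ (q - κ)) ^ P.p ≤ K)
    (hal : 4 * K ≤ al) :
    x ∈ Xk E w q (Jf P.p Δ al β w q i) (Δ.sl w) (Δ.fl w) (ct w) (DD P w) (th i) (mb i β) k := by
  classical
  have hDD : 0 < DD P w := by unfold DD; positivity
  have hpos : 0 < P.p := by linarith [P.hs, P.hsp]
  have hq1 : 2 ^ q = 2 * 2 ^ (q - 1) := by
    rw [← pow_succ']
    congr 1
    omega
  have hq2 : 2 ^ (q - 1) = 2 * 2 ^ (q - 2) := by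
    rw [← pow_succ']
    congr 1
    omega
  -- many directions near `θ`
  have hell : mb i β / 2 ≤ (2 : ℝ) ^ w * Δ.ell θ (2 ^ (q - 1)) := by
    have h1 := hSy.sep w θ (2 ^ (q - 1)) hw1
    have h2 : N.card ≤ ({j : ℕ | j < 2 ^ w ∧
        |Δ.sl w j - θ| ≤ (2 : ℝ) ^ (-((2 ^ (q - 1) : ℕ) : ℤ))}).ncard := by
      rw [← Set.ncard_coe_finset N]
      refine Set.ncard_le_ncard (fun j hj => ?_) ((Set.finite_lt_nat (2 ^ w)).subset fun j hj => hj.1)
      have hj' := hN j hj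
      exact ⟨hj'.1.1, hj'.2⟩
    have h3 : (N.card : ℝ) ≤ 1 + (2 : ℝ) ^ w * Δ.ell θ (2 ^ (q - 1)) :=
      le_trans (by exact_mod_cast h2) h1
    linarith
  -- all the elements of `N` are used
  have hJ : ∀ j ∈ N, j ∈ Jf P.p Δ al β w q i := by
    intro j hj
    obtain ⟨⟨hjw, y, hyV, -, -⟩, hjθ⟩ := hN j hj
    have hjθ' : |θ - Δ.sl w j| ≤ (2 : ℝ) ^ (-((2 ^ (q - 1) : ℕ) : ℤ)) := by
      rw [abs_sub_comm]
      exact hjθ
    unfold Jf
    rw [Finset.mem_filter, Finset.mem_range]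
    refine ⟨hjw, hjw, ?_, ?_, ?_⟩
    · by_contra hcon
      push Not at hcon
      have hrich : Rich (Eg E (DD P w) q k) (Δ.sl w j) (k - (w : ℤ)) (k - (Δ.fl w j : ℤ)) (th i) y :=
        hyV
      have h1 := hXW (Eg E (DD P w) q k) (Δ.sl w j) (k - (w : ℤ)) (k - 2 ^ q)
        (k - (Δ.fl w j : ℤ)) (DD P w) (th i) y (hSy.slope w j hw1 hjw)
        (by
          have h2 : w ≤ 2 ^ q := by omega
          have h3 : (w : ℤ) ≤ 2 ^ q := by exact_mod_cast h2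
          linarith)
        (by
          have h3 : (Δ.fl w j : ℤ) ≤ 2 ^ q := by exact_mod_cast hcon.le
          linarith) hDD.le
        (fun y' b' hb' => by
          refine le_trans (measure_mono ?_) (hEFB.2.2.2.2 E (DD P w) (k - 2 ^ q) b' y' hb')
          refine inter_subset_inter ?_ subset_rfl
          intro z hz
          have h4 := hz.1
          have h5 : ag q = 2 ^ q := by
            unfold ag
            rw [if_neg (by omega)]
          rwa [h5] at h4) hrich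
      linarith
    · have h1 : Δ.ell θ (2 ^ (q - 1)) ≤ Δ.ell (Δ.sl w j) (2 ^ (q - 1) - 1) := by
        have h2 : 1 ≤ 2 ^ (q - 1) := Nat.one_le_two_pow
        have h3 := hSy.shift θ (Δ.sl w j) (2 ^ (q - 1) - 1) (by
          refine hjθ'.trans (le_of_eq ?_)
          congr 2
          push_cast [Nat.cast_sub h2]
          ring)
        rwa [Nat.sub_add_cancel h2] at h3
      have h4 : Δ.ell (Δ.sl w j) (2 ^ (q - 1) - 1) ≤ Δ.ell (Δ.sl w j) (2 ^ (q - 2)) := by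
        refine anti hSy _ ?_
        have h5 : 1 ≤ 2 ^ (q - 2) := Nat.one_le_two_pow
        omega
      refine hell.trans ?_
      exact mul_le_mul_of_nonneg_left (h1.trans h4) (by positivity)
    · intro κ hκ5 hκq
      have h2 : 1 ≤ 2 ^ (q - κ) := Nat.one_le_two_pow
      have h1 : Δ.ell (Δ.sl w j) (2 ^ (q - κ)) ≤ Δ.ell θ (2 ^ (q - κ) - 1) := by
        have h3 := hSy.shift (Δ.sl w j) θ (2 ^ (q - κ) - 1) (by
          refine hjθ.trans ?_
          refine zpow_le_zpow_right₀ (by norm_num) ?_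
          have h4 : 2 ^ (q - κ) ≤ 2 ^ (q - 1) := Nat.pow_le_pow_right (by norm_num) (by omega)
          have h5 : ((2 ^ (q - κ) : ℕ) : ℤ) ≤ ((2 ^ (q - 1) : ℕ) : ℤ) := by exact_mod_cast h4
          have h6 : ((2 ^ (q - κ) - 1 : ℕ) : ℤ) + 1 = ((2 ^ (q - κ) : ℕ) : ℤ) := by
            rw [Nat.cast_sub h2]
            ring
          rw [h6]
          linarith)
        rwa [Nat.sub_add_cancel h2] at h3
      have h4 : Δ.ell θ (2 ^ (q - κ) - 1) ≤ Δ.ell θ (2 ^ (q - (κ + 1))) := by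
        refine anti hSy _ ?_
        have h5 : 1 ≤ 2 ^ (q - (κ + 1)) := Nat.one_le_two_pow
        have h6 : 2 ^ (q - κ) = 2 * 2 ^ (q - (κ + 1)) := by
          rw [← pow_succ']
          congr 1
          omega
        omega
      have h7 : Δ.ell (Δ.sl w j) (2 ^ (q - κ)) ^ P.p ≤ Δ.ell θ (2 ^ (q - (κ + 1))) ^ P.p :=
        Real.rpow_le_rpow (hSy.unit _ _).1 (h1.trans h4) hpos.le
      have h8 : (2 : ℝ) ^ ((q : ℤ) - 2 * ((κ + 1 : ℕ) : ℤ)) * Δ.ell θ (2 ^ (q - (κ + 1))) ^ P.p ≤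
          K := by
        refine le_trans ?_ hsum
        exact Finset.single_le_sum (f := fun κ : ℕ => (2 : ℝ) ^ ((q : ℤ) - 2 * (κ : ℤ)) *
          Δ.ell θ (2 ^ (q - κ)) ^ P.p) (fun κ' _ => mul_nonneg (by positivity)
          (Real.rpow_nonneg (hSy.unit _ _).1 _)) (Finset.mem_Icc.2 ⟨by omega, by omega⟩)
      have h9 : (2 : ℝ) ^ ((q : ℤ) - 2 * (κ : ℤ)) =
          4 * (2 : ℝ) ^ ((q : ℤ) - 2 * ((κ + 1 : ℕ) : ℤ)) := by
        have h10 : (q : ℤ) - 2 * (κ : ℤ) = 2 + ((q : ℤ) - 2 * ((κ + 1 : ℕ) : ℤ)) := by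
          push_cast
          ring
        rw [h10, zpow_add₀ (by norm_num)]
        norm_num
      calc (2 : ℝ) ^ ((q : ℤ) - 2 * (κ : ℤ)) * Δ.ell (Δ.sl w j) (2 ^ (q - κ)) ^ P.p
          ≤ (2 : ℝ) ^ ((q : ℤ) - 2 * (κ : ℤ)) * Δ.ell θ (2 ^ (q - (κ + 1))) ^ P.p :=
            mul_le_mul_of_nonneg_left h7 (by positivity)
        _ = 4 * ((2 : ℝ) ^ ((q : ℤ) - 2 * ((κ + 1 : ℕ) : ℤ)) *
            Δ.ell θ (2 ^ (q - (κ + 1))) ^ P.p) := by rw [h9]; ring
        _ ≤ 4 * K := by linarith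
        _ ≤ al := hal
  -- the set of the hits
  have hsub : {j : ℕ | j ∈ Jf P.p Δ al β w q i ∧ Hit (Δ.sl w j) (ct w j) (Δ.fl w j) w k
      {y | Rich (Eg E (DD P w) q k) (Δ.sl w j) (k - (w : ℤ)) (k - (Δ.fl w j : ℤ)) (th i) y} x} ⊆
      Hs Δ ct w k (th i) (Eg E (DD P w) q k) x := by
    rintro j ⟨h1, h2⟩
    unfold Jf at h1
    rw [Finset.mem_filter, Finset.mem_range] at h1
    exact ⟨h1.1, h2⟩
  have hfin : (Hs Δ ct w k (th i) (Eg E (DD P w) q k) x).Finite :=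
    (Set.finite_lt_nat (2 ^ w)).subset fun j hj => hj.1
  constructor
  · refine hNc.trans ?_
    have h1 : N.card ≤ ({j : ℕ | j ∈ Jf P.p Δ al β w q i ∧ Hit (Δ.sl w j) (ct w j) (Δ.fl w j) w k
        {y | Rich (Eg E (DD P w) q k) (Δ.sl w j) (k - (w : ℤ)) (k - (Δ.fl w j : ℤ)) (th i) y}
          x}).ncard := by
      rw [← Set.ncard_coe_finset N]
      refine Set.ncard_le_ncard (fun j hj => ?_) (hfin.subset hsub)
      exact ⟨hJ j hj, (hN j hj).1.2⟩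
    exact_mod_cast h1
  · refine lt_of_le_of_lt ?_ hhi
    unfold hn
    exact_mod_cast Set.ncard_le_ncard hsub hfin

end GDC

open GDC in
/-- GDC: the good classes at a point -/
theorem hGDC (hEFB : Pool.Agent.Helper68.EP.StEFB) (hXW : Pool.Agent.Helper68.EP.StXW)
    (_hJCL : StJCL) (hCMB : StCMB) (hATL : StATL) : Pool.Agent.Helper68.ES.StGDC := by
  classical
  intro P e he hes
  obtain ⟨u₀, hu1, hnum⟩ := nums P e he hes
  obtain ⟨K, hK1, hK⟩ := hATL P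
  refine ⟨u₀, 4 * K, hu1, by linarith, ?_⟩
  intro Δ ct R Y β V q i k x E n' hSy hE hn' hnV hAc hFp
  have hcV : (0 : ℝ) < (V.card : ℝ) := lt_of_lt_of_le hn' hnV
  have hVne : V.Nonempty := by
    rw [← Finset.card_pos]
    exact_mod_cast hcV
  obtain ⟨us, husV, hus⟩ : ∃ us ∈ V, ∀ w ∈ V, w ≤ us :=
    ⟨V.max' hVne, V.max'_mem hVne, fun w hw => V.le_max' w hw⟩
  obtain ⟨H, hH⟩ : ∃ H : ℕ → Finset ℕ, ∀ w,
      (H w : Set ℕ) = Hs Δ ct w k (th (i w)) (Eg (E w) (DD P w) (q w) k) x := by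
    have hfin : ∀ w, (Hs Δ ct w k (th (i w)) (Eg (E w) (DD P w) (q w) k) x).Finite := fun w =>
      (Set.finite_lt_nat (2 ^ w)).subset fun j hj => hj.1
    exact ⟨fun w => (hfin w).toFinset, fun w => (hfin w).coe_toFinset⟩
  have hcard : ∀ w, hn P Δ ct w (q w) (i w) k (E w) x = ((H w).card : ℝ) := by
    intro w
    unfold hn
    rw [← hH w, Set.ncard_coe_finset]
  have hmemH : ∀ w j, j ∈ H w ↔ j ∈ Hs Δ ct w k (th (i w)) (Eg (E w) (DD P w) (q w) k) x := by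
    intro w j
    rw [← hH w, Finset.mem_coe]
  have hmb : ∀ w, 0 < mb (i w) β := fun w => by unfold mb; positivity
  obtain ⟨j', -, hj'⟩ := hCMB V H (fun w => mb (i w) β) us
    (fun w j j' => (2 : ℝ) ^ ((us : ℤ) - 2 ^ (q us)) < |Δ.sl w j - Δ.sl us j'|) husV
    (fun w hw => ⟨hmb w, by
      show mb (i w) β ≤ ((H w).card : ℝ)
      rw [← hcard]
      exact (hAc w hw).2.lo⟩)
    (fun w hw => by
      refine lt_of_le_of_lt (le_of_eq ?_) (hFp w hw us husV (hus w hw))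
      rw [← Set.ncard_coe_finset]
      congr 2
      ext h
      simp only [Finset.coe_filter, Finset.mem_product, hmemH]
      constructor
      · rintro ⟨⟨h1, h2⟩, h3⟩
        exact ⟨h1, h2, h3⟩
      · rintro ⟨h1, h2, h3⟩
        exact ⟨⟨h1, h2⟩, h3⟩)
  have hat := hK Δ e R Y β V q i (Δ.sl us j') hSy hVne (fun w hw => (hAc w hw).2.cfg)
  refine ⟨V.filter (fun w => (((H w).filter (fun j =>
      (2 : ℝ) ^ ((us : ℤ) - 2 ^ (q us)) < |Δ.sl w j - Δ.sl us j'|)).card : ℝ) ≤ mb (i w) β / 4) ∩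
    V.filter (fun w => ∑ κ ∈ Finset.Icc 1 (q w),
      (2 : ℝ) ^ ((q w : ℤ) - 2 * κ) * Δ.ell (Δ.sl us j') (2 ^ (q w - κ)) ^ P.p ≤ K / (V.card : ℝ)),
    ?_, ?_, ?_⟩
  · exact Finset.inter_subset_left.trans (Finset.filter_subset _ _)
  · have h1 := Finset.card_union_add_card_inter
      (V.filter (fun w => (((H w).filter (fun j =>
        (2 : ℝ) ^ ((us : ℤ) - 2 ^ (q us)) < |Δ.sl w j - Δ.sl us j'|)).card : ℝ) ≤ mb (i w) β / 4))
      (V.filter (fun w => ∑ κ ∈ Finset.Icc 1 (q w),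
        (2 : ℝ) ^ ((q w : ℤ) - 2 * κ) * Δ.ell (Δ.sl us j') (2 ^ (q w - κ)) ^ P.p ≤
          K / (V.card : ℝ)))
    have h2 := Finset.card_le_card (Finset.union_subset
      (Finset.filter_subset (fun w => (((H w).filter (fun j =>
        (2 : ℝ) ^ ((us : ℤ) - 2 ^ (q us)) < |Δ.sl w j - Δ.sl us j'|)).card : ℝ) ≤ mb (i w) β / 4) V)
      (Finset.filter_subset (fun w => ∑ κ ∈ Finset.Icc 1 (q w),
        (2 : ℝ) ^ ((q w : ℤ) - 2 * κ) * Δ.ell (Δ.sl us j') (2 ^ (q w - κ)) ^ P.p ≤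
          K / (V.card : ℝ)) V))
    have h1' := congrArg (Nat.cast : ℕ → ℝ) h1
    rw [Nat.cast_add, Nat.cast_add] at h1'
    have h2' := (Nat.cast_le (α := ℝ)).2 h2
    have hj'' : 3 / 4 * (V.card : ℝ) ≤ ((V.filter (fun w => (((H w).filter (fun j =>
        (2 : ℝ) ^ ((us : ℤ) - 2 ^ (q us)) < |Δ.sl w j - Δ.sl us j'|)).card : ℝ) ≤
          mb (i w) β / 4)).card : ℝ) := by
      convert hj' using 3
    linarith
  · intro w hw
    rw [Finset.mem_inter, Finset.mem_filter, Finset.mem_filter] at hw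
    obtain ⟨⟨hwV, hfar⟩, -, hsum⟩ := hw
    obtain ⟨hwu, hA⟩ := hAc w hwV
    obtain ⟨hq6, hwq, hm4, hD4⟩ := hnum R Y β w (q w) (i w) hwu hA.cfg
    obtain ⟨-, husq, -, -⟩ := hnum R Y β us (q us) (i us) (hAc us husV).1 (hAc us husV).2.cfg
    have hqq : q w ≤ q us := by
      have h1 := hA.cfg.hq
      have h2 := (hAc us husV).2.cfg.hq
      have h3 : ⌊(P.p - 1) * (w : ℝ)⌋ ≤ ⌊(P.p - 1) * (us : ℝ)⌋ := by
        apply Int.floor_le_floor
        have h4 : (w : ℝ) ≤ us := by exact_mod_cast hus w hwV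
        have h5 : 0 ≤ P.p - 1 := by linarith [P.hs, P.hsp]
        exact mul_le_mul_of_nonneg_left h4 h5
      omega
    have hnear : (2 : ℝ) ^ ((us : ℤ) - 2 ^ (q us)) ≤ (2 : ℝ) ^ (-((2 ^ (q w - 1) : ℕ) : ℤ)) := by
      refine zpow_le_zpow_right₀ (by norm_num) ?_
      have h1 : 2 ^ (q w - 1) ≤ 2 ^ (q us - 1) := Nat.pow_le_pow_right (by norm_num) (by omega)
      have h2 : 2 ^ (q us) = 2 * 2 ^ (q us - 1) := by
        rw [← pow_succ']
        congr 1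
        omega
      have h3 : us + 2 ^ (q w - 1) ≤ 2 ^ (q us) := by omega
      have h4 : (us : ℤ) + ((2 ^ (q w - 1) : ℕ) : ℤ) ≤ 2 ^ (q us) := by exact_mod_cast h3
      linarith
    refine goodw hEFB hXW hSy (le_trans hu1 hwu) hq6 hwq hm4 hD4
      ((H w).filter (fun j => ¬ (2 : ℝ) ^ ((us : ℤ) - 2 ^ (q us)) < |Δ.sl w j - Δ.sl us j'|))
      (fun j hj => ?_) ?_ hA.hi hsum ?_
    · rw [Finset.mem_filter, hmemH, not_lt] at hj
      exact ⟨hj.1, hj.2.trans hnear⟩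
    · have h1 := Finset.card_filter_add_card_filter_not (s := H w)
        (fun j => (2 : ℝ) ^ ((us : ℤ) - 2 ^ (q us)) < |Δ.sl w j - Δ.sl us j'|)
      have h2 : (((H w).filter (fun j =>
          (2 : ℝ) ^ ((us : ℤ) - 2 ^ (q us)) < |Δ.sl w j - Δ.sl us j'|)).card : ℝ) +
          (((H w).filter (fun j =>
          ¬ (2 : ℝ) ^ ((us : ℤ) - 2 ^ (q us)) < |Δ.sl w j - Δ.sl us j'|)).card : ℝ) =
          ((H w).card : ℝ) := by exact_mod_cast h1
      have h3 := hA.lo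
      rw [hcard] at h3
      linarith
    · have h1 : K / (V.card : ℝ) ≤ K / n' := div_le_div_of_nonneg_left (by linarith) hn' hnV
      have h2 : 4 * K / n' = 4 * (K / n') := by ring
      linarith

end Pool.Agent.Helper51.ES
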