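import Pool.Agent.Helper68.ES.St3

/-!
# Project ES (MP_cb927e_an), module TWD: two classes, the contradiction
-/

set_option autoImplicit false

open MeasureTheory Set Filter Topology
open scoped ENNReal RealInnerProductSpace

namespace Pool.Agent.Helper51.ES

open Pool.Agent.Helper68.LM (Pl BB Bd Av HL ft fm DQ)
open Pool.Agent.Helper20.RG
open Pool.Agent.Helper20.RL (RQ Rich BM Fml Hit)
open Pool.Agent.Helper68.EP
open Pool.Agent.Helper68.ES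

/-- sets defined by an integer valued function -/
theorem kmeas {X : Set Pl} {κ : Pl → ℤ} (h : ∀ b : ℤ, MeasurableSet {z | z ∈ X ∧ κ z ≤ b})
    (T : Set ℤ) : MeasurableSet {z | z ∈ X ∧ κ z ∈ T} := by
  have h1 : {z | z ∈ X ∧ κ z ∈ T} =
      ⋃ c ∈ T, ({z | z ∈ X ∧ κ z ≤ c} \ {z | z ∈ X ∧ κ z ≤ c - 1}) := by
    ext z
    simp only [mem_setOf_eq, mem_iUnion, mem_diff, not_and, not_le, exists_prop]
    constructor
    · rintro ⟨hz, hT⟩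
      exact ⟨κ z, hT, ⟨hz, le_rfl⟩, fun _ => by omega⟩
    · rintro ⟨c, hc, ⟨hz, h1⟩, h2⟩
      have h3 := h2 hz
      have h4 : κ z = c := by omega
      exact ⟨hz, h4 ▸ hc⟩
  rw [h1]
  exact MeasurableSet.biUnion (to_countable T) fun c _ => (h c).diff (h (c - 1))

/-- the charge of `X` is split into three parts -/
theorem ch_split {p : ℝ} {u : ℕ} {J : Finset ℕ} {ω : ℤ → ℕ → Pl → ℝ≥0∞} {X : Set Pl}
    {R1 R2 R3 : ℤ → ℕ → Set Pl} (hm : ∀ (k : ℤ) (j : ℕ), Measurable (ω k j)) (hX : MeasurableSet X)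
    (h1 : ∀ (k : ℤ) (j : ℕ), MeasurableSet (R1 k j)) (h2 : ∀ (k : ℤ) (j : ℕ), MeasurableSet (R2 k j))
    (h3 : ∀ (k : ℤ) (j : ℕ), MeasurableSet (R3 k j))
    (h : ∀ (k : ℤ) (j : ℕ) (z : Pl), z ∈ X → ω k j z ≠ 0 →
      z ∈ R1 k j ∨ z ∈ R2 k j ∨ z ∈ R3 k j) :
    ch p u J ω (fun _ _ => X) ≤ ch p u J ω R1 + ch p u J ω R2 + ch p u J ω R3 := by
  unfold ch
  rw [← mul_add, ← mul_add, ← ENNReal.tsum_add, ← ENNReal.tsum_add]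
  refine mul_le_mul_right (ENNReal.tsum_le_tsum fun k => ?_) _
  rw [← Finset.sum_add_distrib, ← Finset.sum_add_distrib]
  refine Finset.sum_le_sum fun j _ => ?_
  rw [← lintegral_indicator hX, ← lintegral_indicator (h1 k j), ← lintegral_indicator (h2 k j),
    ← lintegral_indicator (h3 k j), ← lintegral_add_left ((hm k j).indicator (h1 k j)),
    ← lintegral_add_left (f := fun a => (R1 k j).indicator (ω k j) a +
      (R2 k j).indicator (ω k j) a) (((hm k j).indicator (h1 k j)).add ((hm k j).indicator (h2 k j)))]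
  refine lintegral_mono fun z => ?_
  by_cases hz : z ∈ X
  · by_cases h0 : ω k j z = 0
    · rw [indicator_of_mem hz, h0]
      exact zero_le
    · rw [indicator_of_mem hz]
      rcases h k j z hz h0 with h' | h' | h'
      · rw [indicator_of_mem h']
        exact le_add_right (le_add_right le_rfl)
      · rw [indicator_of_mem h' (f := ω k j)]
        exact le_add_right (le_add_left le_rfl)
      · rw [indicator_of_mem h' (f := ω k j)]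
        exact le_add_left le_rfl
  · rw [indicator_of_notMem hz]
    exact zero_le

/-- the charge of a constant set -/
theorem ch_const {p : ℝ} {u : ℕ} {J : Finset ℕ} {ω : ℤ → ℕ → Pl → ℝ≥0∞} (X : Set Pl)
    (hm : ∀ (k : ℤ) (j : ℕ), Measurable (ω k j)) :
    ch p u J ω (fun _ _ => X) = ∫⁻ z in X, cg p u J ω z := by
  unfold ch cg
  rw [lintegral_const_mul _ (Measurable.ennreal_tsum fun k =>
      Finset.measurable_fun_sum J fun j _ => hm k j),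
    lintegral_tsum fun k => (Finset.measurable_fun_sum J fun j _ => hm k j).aemeasurable]
  congr 1
  refine tsum_congr fun k => ?_
  rw [lintegral_finset_sum _ fun j _ => hm k j]

/-- most of the charge of `H'` is carried by the sets `Rs` -/
theorem core1 {p lam : ℝ} {u : ℕ} {J : Finset ℕ} {ω : ℤ → ℕ → Pl → ℝ≥0∞} {H H' : Set Pl}
    {κ : Pl → ℤ} {I : ℕ → Set Pl} {G L : ℤ} (hm : ∀ (k : ℤ) (j : ℕ), Measurable (ω k j))
    (hH' : MeasurableSet H') (hfin : volume H' ≠ ∞) (hlam : 0 < lam)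
    (hκ : ∀ b : ℤ, MeasurableSet {z | z ∈ H' ∧ κ z ≤ b}) (hI : ∀ j : ℕ, MeasurableSet (I j))
    (hvH : volume H ≤ 2 * volume H')
    (hlow : ∀ z ∈ H', ENNReal.ofReal lam ≤ cg p u J ω z)
    (hL : ∀ (k : ℤ) (j : ℕ) (z : Pl), z ∈ H' → ω k j z ≠ 0 → k ≤ κ z + L)
    (hage : ch p u J ω (fun k _ => {z | z ∈ H' ∧ k < κ z + G}) ≤
      ENNReal.ofReal (lam / 64) * volume H + ENNReal.ofReal (lam / 16) * volume H')
    (hin : ch p u J ω (fun _ j => I j) ≤ ENNReal.ofReal (lam / 8) * volume H') :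
    ENNReal.ofReal (lam / 2) * volume H' ≤
      ch p u J ω (fun k j => {z | (z ∈ H' ∧ κ z ∈ {c : ℤ | c + G ≤ k ∧ k ≤ c + L}) ∧ z ∉ I j}) := by
  have hsp := ch_split (p := p) (u := u) (J := J) (ω := ω) (X := H')
    (R1 := fun k _ => {z | z ∈ H' ∧ k < κ z + G}) (R2 := fun _ j => I j)
    (R3 := fun k j => {z | (z ∈ H' ∧ κ z ∈ {c : ℤ | c + G ≤ k ∧ k ≤ c + L}) ∧ z ∉ I j}) hm hH'
    (fun k _ => kmeas hκ {c : ℤ | k < c + G}) (fun _ j => hI j)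
    (fun k j => (kmeas hκ {c : ℤ | c + G ≤ k ∧ k ≤ c + L}).diff (hI j))
    (fun k j z hz h0 => by
      by_cases h1 : k < κ z + G
      · exact Or.inl ⟨hz, h1⟩
      · by_cases h2 : z ∈ I j
        · exact Or.inr (Or.inl h2)
        · exact Or.inr (Or.inr ⟨⟨hz, by push Not at h1; exact h1, hL k j z hz h0⟩, h2⟩))
  rw [ch_const H' hm] at hsp
  have h1 : ENNReal.ofReal lam * volume H' ≤ ∫⁻ z in H', cg p u J ω z := by
    rw [← setLIntegral_const]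
    exact setLIntegral_mono' hH' hlow
  have h2 : ENNReal.ofReal (lam / 64) * volume H + ENNReal.ofReal (lam / 16) * volume H' ≤
      ENNReal.ofReal (lam / 8) * volume H' := by
    calc ENNReal.ofReal (lam / 64) * volume H + ENNReal.ofReal (lam / 16) * volume H'
        ≤ ENNReal.ofReal (lam / 64) * (2 * volume H') + ENNReal.ofReal (lam / 16) * volume H' := by
          gcongr
      _ = ENNReal.ofReal (lam / 64 * 2 + lam / 16) * volume H' := by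
          rw [ENNReal.ofReal_add (by positivity) (by positivity), ENNReal.ofReal_mul (by positivity)]
          norm_num
          ring
      _ ≤ ENNReal.ofReal (lam / 8) * volume H' := by
          gcongr
          linarith
  set Q := ch p u J ω (fun k j => {z | (z ∈ H' ∧ κ z ∈ {c : ℤ | c + G ≤ k ∧ k ≤ c + L}) ∧ z ∉ I j})
    with hQ
  have h3 : ENNReal.ofReal lam * volume H' ≤
      ENNReal.ofReal (lam / 8) * volume H' + ENNReal.ofReal (lam / 8) * volume H' + Q :=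
    h1.trans (hsp.trans (by gcongr; exact hage.trans h2))
  have h4 : ENNReal.ofReal lam * volume H' = ENNReal.ofReal (lam / 8) * volume H' +
      ENNReal.ofReal (lam / 8) * volume H' + ENNReal.ofReal (3 * lam / 4) * volume H' := by
    rw [← add_mul, ← add_mul, ← ENNReal.ofReal_add (by positivity) (by positivity),
      ← ENNReal.ofReal_add (by positivity) (by positivity)]
    congr 2
    ring
  rw [h4] at h3
  have h5 : ENNReal.ofReal (3 * lam / 4) * volume H' ≤ Q :=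
    (ENNReal.add_le_add_iff_left (ENNReal.add_ne_top.2 ⟨ENNReal.mul_ne_top ENNReal.ofReal_ne_top hfin,
      ENNReal.mul_ne_top ENNReal.ofReal_ne_top hfin⟩)).1 h3
  exact le_trans (mul_le_mul' (ENNReal.ofReal_le_ofReal (by linarith)) le_rfl) h5

/-- the volume of the rich points, bounded by the dual ridge theorem for the fattened set -/
theorem core2 (hEQ : StEQ) (hDRB : StDRB) (hLAY : StLAY) (hOUT : StOUT) (hLOW : StLOW)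
    (hTWE : StTWE) {Ct : ℝ}
    (hDRT : ∀ (J : Finset ℕ) (g : ℕ) (s : ℕ → ℝ) (K : Set Pl) (a b : ℤ) (D θ nst : ℝ),
      (∀ j ∈ J, |s j| ≤ 1) → BM K → 0 < D → Ct * D ≤ θ → θ ≤ 1 → 2 ≤ g → b + 18 * g ≤ a →
      Dn K D b → 1 ≤ nst →
      (∀ j ∈ J, ({j' : ℕ | j' ∈ J ∧ |s j' - s j| ≤ (2 : ℝ) ^ (-(g : ℤ))}.ncard : ℝ) ≤ nst) →
      ∑ j ∈ J, volume (K ∩ Ri K (s j) a b θ ((2 : ℝ) ^ a)) ≤
        ENNReal.ofReal (Ct * nst * (1 + D / θ ^ 2)) * volume K)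
    {H : Set Pl} {κ₁ κ₂ : Pl → ℤ} {u g₁ g₂ : ℕ} {J : Finset ℕ} {sl : ℕ → ℝ} {fl : ℕ → ℕ}
    {D₁ D₂ d₀ κ₀ θ' nst : ℝ} {Rs : ℕ → Set Pl} {l k : ℤ}
    (hH : BM H) (hK1 : Kap H D₁ κ₁) (hK2 : Kap H D₂ κ₂) (hg1 : 1 ≤ g₁) (hg2 : 2 ≤ g₂)
    (hD1 : 0 < D₁) (hD2 : 0 < D₂) (hd0 : 0 < d₀) (hk0 : 0 < κ₀)
    (hDk : 4 * D₁ < κ₀)
    (hB : ∀ z ∈ Ns H κ₁ g₁ d₀, Rz κ₁ g₁ z + 2 < κ₂ z ∧
      ∀ z' ∈ H ∩ DQ (Rz κ₁ g₁ z) z, κ₂ z' = κ₂ z)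
    (hsl : ∀ j ∈ J, |sl j| ≤ 1)
    (hRs : ∀ j ∈ J, MeasurableSet (Rs j) ∧
      ∀ z ∈ Rs j, z ∉ In H (Ns H κ₁ g₁ d₀) κ₁ g₁ κ₀ (sl j))
    (hFpos : 0 < volume (Ly (Ns H κ₁ g₁ d₀) κ₂ g₂ l))
    (hz : ∃ z ∈ Ly (Ns H κ₁ g₁ d₀) κ₂ g₂ l, κ₂ z + 64 * g₂ ≤ k) (hu : u ≤ 43 * g₂)
    (hθ' : 0 < θ') (he4 : 4 * (625 * D₂ / d₀) < θ' / (10 * κ₀))
    (heC : Ct * (625 * D₂ / d₀) ≤ θ' / (10 * κ₀)) (hθ1 : θ' / (10 * κ₀) ≤ 1) (hCt : 1 ≤ Ct)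
    (hn1 : 1 ≤ nst)
    (hnst : ∀ j ∈ J, ({j' : ℕ | j' ∈ J ∧ |sl j' - sl j| ≤ (2 : ℝ) ^ (-(g₂ : ℤ))}.ncard : ℝ) ≤
      nst) :
    ∑ j ∈ J, volume {z | z ∈ Rs j ∩ Ly (Ns H κ₁ g₁ d₀) κ₂ g₂ l ∧
        Rich (Rs j ∩ Ly (Ns H κ₁ g₁ d₀) κ₂ g₂ l) (sl j) (k - (u : ℤ)) (k - (fl j : ℤ)) θ' z} ≤
      ENNReal.ofReal (4 * D₁ * (Ct * nst * (1 + (625 * D₂ / d₀) / (θ' / (10 * κ₀)) ^ 2)) *
        (25 / d₀)) * volume (Ly (Ns H κ₁ g₁ d₀) κ₂ g₂ l) := by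
  obtain ⟨⟨hBM', hsub, hmeas'⟩, hLb, -⟩ := hLAY H κ₁ g₁ D₁ d₀ hH hK1 hg1 hD1 hd0
  have hWE := fun (s : ℝ) (z : Pl) (hs : |s| ≤ 1) (hz : z ∈ Ns H κ₁ g₁ d₀) =>
    hTWE H κ₁ g₁ D₁ d₀ κ₀ s z hH hK1 hg1 hD1 hd0 hDk hs hz
  have hg1' : (0 : ℤ) < (g₁ : ℤ) := by exact_mod_cast hg1
  have hg2' : (0 : ℤ) < (g₂ : ℤ) := by exact_mod_cast (by omega : 0 < g₂)
  -- measurability
  have hm2 : ∀ b : ℤ, MeasurableSet {z | z ∈ Ns H κ₁ g₁ d₀ ∧ κ₂ z ≤ b} := by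
    intro b
    have h1 : {z | z ∈ Ns H κ₁ g₁ d₀ ∧ κ₂ z ≤ b} = Ns H κ₁ g₁ d₀ ∩ {z | z ∈ H ∧ κ₂ z ≤ b} := by
      ext z
      constructor
      · rintro ⟨h1, h2⟩
        exact ⟨h1, hsub h1, h2⟩
      · rintro ⟨h1, -, h2⟩
        exact ⟨h1, h2⟩
    rw [h1]
    exact hBM'.1.inter (hK2.1 b)
  set F : Set Pl := Ly (Ns H κ₁ g₁ d₀) κ₂ g₂ l with hF
  have hFN : F ⊆ Ns H κ₁ g₁ d₀ := fun z hz => hz.1
  have hFm : MeasurableSet F := kmeas hm2 {c : ℤ | c / (g₂ : ℤ) = l}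
  have hFB : BM F := ⟨hFm, hBM'.2.subset hFN⟩
  have hRm : ∀ X : Set Pl, MeasurableSet X → X ⊆ F → ∀ b : ℤ,
      MeasurableSet {z | z ∈ X ∧ Rz κ₁ g₁ z ≤ b} := by
    intro X hX hXF b
    have h1 : {z | z ∈ X ∧ Rz κ₁ g₁ z ≤ b} =
        X ∩ {z | z ∈ Ns H κ₁ g₁ d₀ ∧ κ₁ z ∈ {c : ℤ | (c / (g₁ : ℤ) + 3) * g₁ ≤ b}} := by
      ext z
      constructor
      · rintro ⟨h1, h2⟩
        exact ⟨h1, hFN (hXF h1), h2⟩
      · rintro ⟨h1, -, h2⟩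
        exact ⟨h1, h2⟩
    rw [h1]
    exact hX.inter (kmeas hmeas' _)
  -- the scale of the points of `F`
  have hκF : ∀ z ∈ F, l * g₂ ≤ κ₂ z ∧ κ₂ z < (l + 1) * g₂ := by
    intro z hz
    have h1 : κ₂ z / (g₂ : ℤ) = l := hz.2
    have h2 := Int.ediv_mul_add_emod (κ₂ z) (g₂ : ℤ)
    have h3 := Int.emod_nonneg (κ₂ z) hg2'.ne'
    have h4 := Int.emod_lt_of_pos (κ₂ z) hg2'
    rw [h1] at h2
    constructor
    · linarith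
    · linarith
  have hRF : ∀ z ∈ F, Rz κ₁ g₁ z + 2 ≤ (l + 1) * g₂ := fun z hz => by
    have h1 := (hB z (hFN hz)).1
    have h2 := (hκF z hz).2
    linarith
  have hdF : ∀ z ∈ F, ENNReal.ofReal (d₀ * (4 : ℝ) ^ (Rz κ₁ g₁ z)) <
      volume (F ∩ DQ (Rz κ₁ g₁ z) z) := by
    intro z hz
    refine lt_of_lt_of_le (hLb z (hFN hz)).2 (measure_mono ?_)
    rintro z' ⟨hz'1, hz'2⟩
    have h1 : z' ∈ Ns H κ₁ g₁ d₀ := hz'1.1
    have h2 := (hB z (hFN hz)).2 z' ⟨hsub h1, hz'2⟩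
    refine ⟨⟨h1, ?_⟩, hz'2⟩
    rw [h2]
    exact hz.2
  have hDF : ∀ z ∈ F, ∀ b : ℤ, (l + 1) * g₂ ≤ b →
      volume (F ∩ DQ b z) ≤ ENNReal.ofReal (D₂ * (4 : ℝ) ^ b) := by
    intro z hz b hb
    have h1 := (hκF z hz).2
    refine le_trans (measure_mono ?_) (hK2.2 z (hsub (hFN hz)) b (by linarith))
    exact inter_subset_inter (fun y hy => hsub (hFN hy)) (hEQ.1 b z).2.2.1
  have hDnF : Dn F D₂ ((l + 1) * g₂) := by
    intro z hz b hb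
    have h1 := (hκF z hz).2
    refine le_trans (measure_mono ?_) (hK2.2 z (hsub (hFN hz)) b (by linarith))
    exact inter_subset_inter (fun y hy => hsub (hFN hy)) subset_rfl
  obtain ⟨hKB, -, hKv, hKD⟩ := hOUT F (Rz κ₁ g₁) ((l + 1) * g₂) d₀ D₂ hFB (hRm F hFm subset_rfl) hd0
    hD2 hRF hdF hDF
  obtain ⟨z₀, hz₀, hz₀k⟩ := hz
  -- scales
  have hab : (l + 1) * (g₂ : ℤ) + 18 * g₂ ≤ k - (u : ℤ) := by
    have h1 := (hκF z₀ hz₀).1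
    have h2 : (u : ℤ) ≤ 43 * g₂ := by exact_mod_cast hu
    linarith
  have hab' : (l + 1) * (g₂ : ℤ) ≤ k - (u : ℤ) := by linarith
  -- `d₀ < D₁`
  have hdD : d₀ < D₁ := by
    have h1 := (hLb z₀ (hFN hz₀)).2
    have h2 := (hWE 0 z₀ (by simp) (hFN hz₀)).2 (Rz κ₁ g₁ z₀) le_rfl
    have h3 : volume (Ly (Ns H κ₁ g₁ d₀) κ₁ g₁ (κ₁ z₀ / (g₁ : ℤ)) ∩ DQ (Rz κ₁ g₁ z₀) z₀) ≤
        volume (H ∩ DQ (Rz κ₁ g₁ z₀) z₀) :=
      measure_mono (inter_subset_inter (fun y hy => hsub hy.1) subset_rfl)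
    have h4 := h1.trans_le (h3.trans h2)
    have h5 : d₀ * (4 : ℝ) ^ (Rz κ₁ g₁ z₀) < D₁ * (4 : ℝ) ^ (Rz κ₁ g₁ z₀) :=
      (ENNReal.ofReal_lt_ofReal_iff (by positivity)).1 h4
    exact lt_of_mul_lt_mul_right h5 (by positivity)
  have he0 : 0 < 625 * D₂ / d₀ := by positivity
  have h4D : 4 * D₂ < θ' := by
    have h1 : D₂ = (625 * D₂ / d₀) * d₀ / 625 := by field_simp
    have h2 : 4 * (625 * D₂ / d₀) * κ₀ < θ' / 10 := by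
      have h3 : θ' / (10 * κ₀) * κ₀ = θ' / 10 := by field_simp
      rw [← h3]
      exact mul_lt_mul_of_pos_right he4 hk0
    have h3 : (625 * D₂ / d₀) * d₀ ≤ (625 * D₂ / d₀) * κ₀ :=
      mul_le_mul_of_nonneg_left (by linarith) he0.le
    have h5 : 0 < (625 * D₂ / d₀) * d₀ := by positivity
    linarith
  have hDB := hDRB F D₂ ((l + 1) * g₂) hD2.le hDnF
  -- every direction
  have hj : ∀ j ∈ J, volume {z | z ∈ Rs j ∩ F ∧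
      Rich (Rs j ∩ F) (sl j) (k - (u : ℤ)) (k - (fl j : ℤ)) θ' z} ≤
      ENNReal.ofReal (4 * D₁) * volume (Ft F (Rz κ₁ g₁) ∩ Ri (Ft F (Rz κ₁ g₁)) (sl j) (k - (u : ℤ))
        ((l + 1) * g₂) (θ' / (10 * κ₀)) ((2 : ℝ) ^ (k - (u : ℤ)))) := by
    intro j hj
    rcases eq_empty_or_nonempty {z | z ∈ Rs j ∩ F ∧
      Rich (Rs j ∩ F) (sl j) (k - (u : ℤ)) (k - (fl j : ℤ)) θ' z} with h0 | ⟨y, -, hy⟩
    · rw [h0, measure_empty]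
      exact zero_le
    · have hDn' : Dn (Rs j ∩ F) D₂ ((l + 1) * g₂) := hDB.2.2.2 _ inter_subset_right
      have hw := (hDRB (Rs j ∩ F) D₂ ((l + 1) * g₂) hD2.le hDn').2.2.1 (sl j) (k - (u : ℤ))
        (k - (fl j : ℤ)) θ' y (hsl j hj) hab' h4D hy
      refine hLOW (sl j) (k - (u : ℤ)) (k - (fl j : ℤ)) ((l + 1) * g₂) (Rs j ∩ F) F (Rz κ₁ g₁) θ' κ₀
        D₁ (625 * D₂ / d₀) (hsl j hj) (by linarith) hab'
        ⟨(hRs j hj).1.inter hFm, hFB.2.subset inter_subset_right⟩ inter_subset_right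
        (hRm _ ((hRs j hj).1.inter hFm) inter_subset_right) hRF hθ' hD1 (by linarith) ?_ ?_ he0.le
        hKD he4
      · intro z hz b hb
        refine le_trans (measure_mono ?_) ((hWE (sl j) z (hsl j hj) (hFN hz.2)).2 b hb)
        exact inter_subset_inter (fun y hy => hsub (hFN hy.2)) subset_rfl
      · intro z hz hBR
        refine le_trans (measure_mono ?_) ((hWE (sl j) z (hsl j hj) (hFN hz.2)).1
          ((hRs j hj).2 z hz.1) _ hBR)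
        rintro z' ⟨⟨hz'1, hz'2⟩, hz'3⟩
        exact ⟨⟨hFN hz'1.2, hz'2⟩, hz'3⟩
  have hT := hDRT J g₂ sl (Ft F (Rz κ₁ g₁)) (k - (u : ℤ)) ((l + 1) * g₂) (625 * D₂ / d₀)
    (θ' / (10 * κ₀)) nst hsl hKB he0 heC hθ1 hg2 hab hKD hn1 hnst
  calc ∑ j ∈ J, volume {z | z ∈ Rs j ∩ F ∧
        Rich (Rs j ∩ F) (sl j) (k - (u : ℤ)) (k - (fl j : ℤ)) θ' z}
      ≤ ∑ j ∈ J, ENNReal.ofReal (4 * D₁) * volume (Ft F (Rz κ₁ g₁) ∩ Ri (Ft F (Rz κ₁ g₁)) (sl j)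
        (k - (u : ℤ)) ((l + 1) * g₂) (θ' / (10 * κ₀)) ((2 : ℝ) ^ (k - (u : ℤ)))) :=
        Finset.sum_le_sum hj
    _ = ENNReal.ofReal (4 * D₁) * ∑ j ∈ J, volume (Ft F (Rz κ₁ g₁) ∩ Ri (Ft F (Rz κ₁ g₁)) (sl j)
        (k - (u : ℤ)) ((l + 1) * g₂) (θ' / (10 * κ₀)) ((2 : ℝ) ^ (k - (u : ℤ)))) := by
        rw [Finset.mul_sum]
    _ ≤ ENNReal.ofReal (4 * D₁) * (ENNReal.ofReal (Ct * nst * (1 + (625 * D₂ / d₀) /
        (θ' / (10 * κ₀)) ^ 2)) * (ENNReal.ofReal (25 / d₀) * volume F)) := by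
        gcongr
        exact hT.trans (by gcongr)
    _ = ENNReal.ofReal (4 * D₁ * (Ct * nst * (1 + (625 * D₂ / d₀) / (θ' / (10 * κ₀)) ^ 2)) *
        (25 / d₀)) * volume F := by
        have h1 : 0 ≤ 4 * D₁ := by linarith
        have h2 : 0 ≤ Ct * nst * (1 + (625 * D₂ / d₀) / (θ' / (10 * κ₀)) ^ 2) := by positivity
        rw [ENNReal.ofReal_mul (mul_nonneg h1 h2), ENNReal.ofReal_mul h1]
        ring

/-- TWD: the contradiction for two classes -/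
theorem hTWD (hEQ : Pool.Agent.Helper68.EP.StEQ) (_hEFB : Pool.Agent.Helper68.EP.StEFB) (hKPF : StKPF)
    (hSUP : StSUP) (hAGE : StAGE) (hPLM : StPLM) (hDRB : StDRB) (hDRT : StDRT) (hLAY : StLAY)
    (hOUT : StOUT) (hLOW : StLOW) (hTWA : StTWA) (hTWB : StTWB) (hTWC : StTWC) (hTWE : StTWE) :
    Pool.Agent.Helper68.ES.StTWD := by
  obtain ⟨Ca, hCa, hAGE⟩ := hAGE
  obtain ⟨Ct, hCt, hDRT⟩ := hDRT
  obtain ⟨Cw, hCw, hTWA⟩ := hTWA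
  obtain ⟨Cc, hCc, hTWC⟩ := hTWC
  refine ⟨Ca + Ct + Cw + Cc, by linarith, ?_⟩
  intro C₀ p A CH E H w u q₁ q₂ r J₁ J₂ sl₁ sl₂ fl₁ fl₂ D₁ D₂ θ₁ m₁ θ₂ m₂ al lam M d₀ κ₀ ω₁ ω₂ hC
    hp1 hp2 hNu hc1 hch1 hc2 hch2 hD1 hD2 hE hH hHE hvH hlow hi1 hi2
  obtain ⟨hr1, hr2⟩ := hNu.r1
  obtain ⟨hth1, hth1', hth2, hth2', hm1, hm2⟩ := hNu.th1
  obtain ⟨hlam, hlam1, hM, hd0, hk0, hk1, hA, hCH⟩ := hNu.pos
  have hpw : (0 : ℝ) < (2 : ℝ) ^ (-(p * (w : ℝ))) := Real.rpow_pos_of_pos two_pos _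
  have hpu : (0 : ℝ) < (2 : ℝ) ^ (-(p * (u : ℝ))) := Real.rpow_pos_of_pos two_pos _
  have hD1' : 0 < M * (2 : ℝ) ^ (-(p * (w : ℝ))) := mul_pos hM hpw
  have hD2' : 0 < M * (2 : ℝ) ^ (-(p * (u : ℝ))) := mul_pos hM hpu
  have hlam' : ENNReal.ofReal lam ≠ 0 := (ENNReal.ofReal_pos.2 hlam).ne'
  -- exit scales
  have hS1 : ∀ z ∈ H, ∃ b : ℤ, z ∉ Fb E D₁ b := fun z hz =>
    ((hSUP p CH E w q₁ J₁ sl₁ fl₁ D₁ θ₁ m₁ ω₁ hch1 hE (by omega) hD1 hth1 hm1).2.1 z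
      (fun h0 => hlam' (nonpos_iff_eq_zero.1 (h0 ▸ (hlow z hz).1)))).2
  have hS2 : ∀ z ∈ H, ∃ b : ℤ, z ∉ Fb E D₂ b := fun z hz =>
    ((hSUP p CH E u q₂ J₂ sl₂ fl₂ D₂ θ₂ m₂ ω₂ hch2 hE (by omega) hD2 hth2 hm2).2.1 z
      (fun h0 => hlam' (nonpos_iff_eq_zero.1 (h0 ▸ (hlow z hz).2)))).2
  obtain ⟨hKap1, -⟩ := hKPF H E (M * (2 : ℝ) ^ (-(p * (w : ℝ)))) D₁ hH hE hHE hD1' hD1 hS1
  obtain ⟨hKap2, hkp2⟩ := hKPF H E (M * (2 : ℝ) ^ (-(p * (u : ℝ)))) D₂ hH hE hHE hD2' hD2 hS2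
  have hA4 := hTWA C₀ p A CH E H w u q₁ q₂ r J₁ sl₁ fl₁ D₁ θ₁ m₁ θ₂ m₂ al lam M d₀ κ₀ ω₁
    (by linarith) hp1 hp2 hNu hc1 hch1 hD1 hE hH hHE hvH (fun z hz => (hlow z hz).1) hi1
  have hB := hTWB E H (kp H E (M * (2 : ℝ) ^ (-(p * (w : ℝ)))) D₁) (2 ^ (q₁ - 6 - r)) d₀
    (M * (2 : ℝ) ^ (-(p * (u : ℝ)))) D₂ hE hH hHE Nat.one_le_two_pow hD2' hD2 hNu.sep hS2
  obtain ⟨hInm, hIn⟩ := hTWC C₀ p A CH E H (kp H E (M * (2 : ℝ) ^ (-(p * (w : ℝ)))) D₁) w u q₁ q₂ r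
    J₂ sl₂ fl₂ D₂ θ₁ m₁ θ₂ m₂ al lam M d₀ κ₀ ω₂ (by linarith) hp1 hp2 hNu hc2 hch2 hD2 hE hH hHE
    hKap1
  obtain ⟨⟨hBM', hsub, hmeas'⟩, -, -⟩ := hLAY H (kp H E (M * (2 : ℝ) ^ (-(p * (w : ℝ)))) D₁)
    (2 ^ (q₁ - 6 - r)) (M * (2 : ℝ) ^ (-(p * (w : ℝ)))) d₀ hH hKap1 Nat.one_le_two_pow hD1' hd0
  have hAG := hAGE p CH E H (Ns H (kp H E (M * (2 : ℝ) ^ (-(p * (w : ℝ)))) D₁) (2 ^ (q₁ - 6 - r)) d₀)
    u q₂ (2 ^ (q₂ - r)) J₂ sl₂ fl₂ D₂ θ₂ m₂ (M * (2 : ℝ) ^ (-(p * (u : ℝ)))) ω₂ hch2 hE hH hHE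
    hBM'.1 hsub hD2' hD2 (by linarith) hth2 hm2 hS2
  have hkp2' : ∀ z ∈ H, ∀ b : ℤ, z ∉ Fb E D₂ b →
      b < kp H E (M * (2 : ℝ) ^ (-(p * (u : ℝ)))) D₂ z := by
    intro z hz b hb
    by_contra hcon
    exact hb ((hkp2 z hz b).1 (not_lt.1 hcon)).2
  generalize kp H E (M * (2 : ℝ) ^ (-(p * (w : ℝ)))) D₁ = κ₁ at *
  generalize kp H E (M * (2 : ℝ) ^ (-(p * (u : ℝ)))) D₂ = κ₂ at *
  set H' : Set Pl := Ns H κ₁ (2 ^ (q₁ - 6 - r)) d₀ with hH'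
  have hfH : volume H ≠ ∞ := hH.2.measure_lt_top.ne
  have hfH' : volume H' ≠ ∞ := hBM'.2.measure_lt_top.ne
  have hsplit : volume H = volume H' + volume (H \ H') := by
    rw [← measure_inter_add_diff H hBM'.1, inter_eq_self_of_subset_right hsub]
  have hvH' : volume H ≤ 2 * volume H' := by
    have h1 : volume H' ≠ ∞ := hfH'
    have h2 : volume (H \ H') ≠ ∞ := ne_top_of_le_ne_top hfH (measure_mono diff_subset)
    have e1 : volume H' = ENNReal.ofReal (volume H').toReal := (ENNReal.ofReal_toReal h1).symm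
    have e2 : volume (H \ H') = ENNReal.ofReal (volume (H \ H')).toReal :=
      (ENNReal.ofReal_toReal h2).symm
    have p1 : 0 ≤ (volume H').toReal := ENNReal.toReal_nonneg
    have p2 : 0 ≤ (volume (H \ H')).toReal := ENNReal.toReal_nonneg
    rw [hsplit, e1, e2, ← ENNReal.ofReal_add p1 p2] at hA4
    have h3 : (4 : ℝ≥0∞) = ENNReal.ofReal 4 := by simp
    rw [h3, ← ENNReal.ofReal_mul (by norm_num), ENNReal.ofReal_le_ofReal_iff (by linarith)] at hA4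
    calc volume H = ENNReal.ofReal ((volume H').toReal + (volume (H \ H')).toReal) := by
          rw [hsplit, ENNReal.ofReal_add p1 p2, ← e1, ← e2]
      _ ≤ ENNReal.ofReal (2 * (volume H').toReal) := ENNReal.ofReal_le_ofReal (by linarith)
      _ = 2 * volume H' := by
          rw [ENNReal.ofReal_mul (by norm_num), ENNReal.ofReal_ofNat, ← e1]
  have hposH' : 0 < volume H' := by
    rw [pos_iff_ne_zero]
    intro h0
    rw [h0, mul_zero] at hvH'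
    exact hvH.ne' (nonpos_iff_eq_zero.1 hvH')
  -- powers of two
  have hq1 : 64 * 2 ^ (q₂ - 6 - r) = 2 ^ (q₂ - r) := by
    have : q₂ - r = 6 + (q₂ - 6 - r) := by omega
    rw [this, pow_add]
    norm_num
  have hq2 : 2 ^ (r + 7) * 2 ^ (q₂ - 6 - r) = 2 ^ (q₂ + 1) := by
    rw [← pow_add]
    congr 1
    omega
  have hκm : ∀ b : ℤ, MeasurableSet {z | z ∈ H' ∧ κ₂ z ≤ b} := by
    intro b
    have h1 : {z | z ∈ H' ∧ κ₂ z ≤ b} = H' ∩ {z | z ∈ H ∧ κ₂ z ≤ b} := by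
      ext z
      constructor
      · rintro ⟨h1, h2⟩
        exact ⟨h1, hsub h1, h2⟩
      · rintro ⟨h1, -, h2⟩
        exact ⟨h1, h2⟩
    rw [h1]
    exact hBM'.1.inter (hKap2.1 b)
  have hJ : (J₂.card : ℝ) ≤ 2 ^ u := hc2.card
  have hage : ch p u J₂ ω₂ (fun k _ => {z | z ∈ H' ∧ k < κ₂ z + ((2 ^ (q₂ - r) : ℕ) : ℤ)}) ≤
      ENNReal.ofReal (lam / 64) * volume H + ENNReal.ofReal (lam / 16) * volume H' := by
    refine hAG.trans ?_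
    gcongr
    · have h1 : (2 : ℝ) ^ (-(p * (u : ℝ))) * (Ca * CH / (M * (2 : ℝ) ^ (-(p * (u : ℝ))))) =
          Ca * CH / M := by
        field_simp
      rw [h1]
      have h2 : Ca * CH / M ≤ C₀ * CH / M := by
        gcongr
        linarith
      have h3 := hNu.sur
      have h4 : 64 * C₀ * CH / M = 64 * (C₀ * CH / M) := by ring
      linarith
    · refine le_trans ?_ hNu.you.2
      push_cast
      gcongr
  have hcore := core1 (p := p) (lam := lam) (u := u) (J := J₂) (ω := ω₂) (H := H) (H' := H')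
    (κ := κ₂) (I := fun j => In H H' κ₁ (2 ^ (q₁ - 6 - r)) κ₀ (sl₂ j))
    (G := ((2 ^ (q₂ - r) : ℕ) : ℤ)) (L := (2 : ℤ) ^ (q₂ + 1)) hch2.meas hBM'.1 hfH' hlam hκm hInm
    hvH' (fun z hz => (hlow z (hsub hz)).2)
    (fun k j z hz h0 => by
      have h1 := (hch2.supp k j z h0).2.1
      have h2 := hkp2' z (hsub hz) _ h1.2
      linarith) hage hIn
  have hi2' : ∫⁻ z, cg p u J₂ ω₂ z ≤ ENNReal.ofReal (2 / lam) * volume H' := by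
    refine hi2.trans ?_
    calc ENNReal.ofReal (1 / lam) * volume H ≤ ENNReal.ofReal (1 / lam) * (2 * volume H') := by
          gcongr
      _ = ENNReal.ofReal (2 / lam) * volume H' := by
          have h1 : 2 / lam = 1 / lam * 2 := by ring
          rw [h1, ENNReal.ofReal_mul (by positivity)]
          simp only [ENNReal.ofReal_ofNat]
          ring
  obtain ⟨l, k, hlpos, hzk, hbig⟩ := hPLM p CH E H' u q₂ (2 ^ (q₂ - 6 - r)) (2 ^ (r + 7)) J₂ sl₂ fl₂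
    D₂ θ₂ m₂ (lam / 2) (2 / lam) ω₂ κ₂
    (fun k j => {z | (z ∈ H' ∧ κ₂ z ∈ {c : ℤ | c + ((2 ^ (q₂ - r) : ℕ) : ℤ) ≤ k ∧
      k ≤ c + (2 : ℤ) ^ (q₂ + 1)}) ∧ z ∉ In H H' κ₁ (2 ^ (q₁ - 6 - r)) κ₀ (sl₂ j)})
    hch2 hE hBM' hκm Nat.one_le_two_pow Nat.one_le_two_pow
    (fun k j => ⟨(kmeas hκm _).diff (hInm j), fun z hz => hz.1.1, fun z hz => by
      have h1 := hz.1.2
      have h2 : (64 : ℤ) * ((2 ^ (q₂ - 6 - r) : ℕ) : ℤ) = ((2 ^ (q₂ - r) : ℕ) : ℤ) := by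
        rw [← hq1]; push_cast; ring
      have h3 : ((2 ^ (r + 7) : ℕ) : ℤ) * ((2 ^ (q₂ - 6 - r) : ℕ) : ℤ) = (2 : ℤ) ^ (q₂ + 1) := by
        have := hq2
        rw [← Nat.cast_mul, this]; push_cast; ring
      rw [h2, h3]
      exact h1⟩)
    hm2 hth2 (by linarith) (by positivity) hposH' hcore hi2'
  have hg2 : 2 ≤ 2 ^ (q₂ - 6 - r) := by
    calc 2 = 2 ^ 1 := by norm_num
      _ ≤ 2 ^ (q₂ - 6 - r) := Nat.pow_le_pow_right (by norm_num) (by omega)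
  have hkap := hNu.kap
  have hout := hNu.out
  have hfin := hNu.fin
  have hC0 : 1 ≤ C₀ := by linarith
  have hθeq : lam / 2 * θ₂ / (2 * (((2 ^ (r + 7) : ℕ) : ℝ) + 2) * (2 / lam)) / (10 * κ₀) =
      lam ^ 2 * θ₂ / (80 * (2 ^ (r + 7) + 2) * κ₀) := by
    push_cast
    field_simp
    ring
  have hD1p : M * (2 : ℝ) ^ (-(p * (w : ℝ))) * 4 ≤ (4 + C₀) * (M * (2 : ℝ) ^ (-(p * (w : ℝ)))) := by
    nlinarith
  have he0 : 0 < 625 * (M * (2 : ℝ) ^ (-(p * (u : ℝ)))) / d₀ := by positivity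
  have hup := core2 hEQ hDRB hLAY hOUT hLOW hTWE hDRT (H := H) (κ₁ := κ₁) (κ₂ := κ₂) (u := u)
    (g₁ := 2 ^ (q₁ - 6 - r)) (g₂ := 2 ^ (q₂ - 6 - r)) (J := J₂) (sl := sl₂) (fl := fl₂)
    (D₁ := M * (2 : ℝ) ^ (-(p * (w : ℝ)))) (D₂ := M * (2 : ℝ) ^ (-(p * (u : ℝ)))) (d₀ := d₀)
    (κ₀ := κ₀) (θ' := lam / 2 * θ₂ / (2 * (((2 ^ (r + 7) : ℕ) : ℝ) + 2) * (2 / lam)))
    (nst := 1 + (2 : ℝ) ^ u * (A / 2 ^ (q₂ - 6 - r)) ^ (1 / p))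
    (Rs := fun j => {z | (z ∈ H' ∧ κ₂ z ∈ {c : ℤ | c + ((2 ^ (q₂ - r) : ℕ) : ℤ) ≤ k ∧
      k ≤ c + (2 : ℤ) ^ (q₂ + 1)}) ∧ z ∉ In H H' κ₁ (2 ^ (q₁ - 6 - r)) κ₀ (sl₂ j)})
    (l := l) (k := k) hH hKap1 hKap2 Nat.one_le_two_pow hg2 hD1' hD2' hd0 hk0 (by linarith) hB
    hc2.slope (fun j _ => ⟨(kmeas hκm _).diff (hInm j), fun z hz => hz.2⟩) hlpos hzk hNu.siz.2
    (by positivity) (by rw [hθeq]; nlinarith) (by rw [hθeq]; nlinarith) (by rw [hθeq]; exact hout.2)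
    hCt (by
      have : 0 ≤ (2 : ℝ) ^ u * (A / 2 ^ (q₂ - 6 - r)) ^ (1 / p) := by positivity
      linarith)
    (fun j hj => by
      have h1 := hc2.sep j hj (2 ^ (q₂ - 6 - r)) Nat.one_le_two_pow
      have h2 : (((2 ^ (q₂ - 6 - r) : ℕ)) : ℝ) = 2 ^ (q₂ - 6 - r) := by push_cast; rfl
      rw [h2] at h1
      exact h1)
  have hfinal := hbig.trans hup
  rw [hθeq] at hfinal
  have hFfin : volume (Ly H' κ₂ (2 ^ (q₂ - 6 - r)) l) ≠ ∞ :=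
    ne_top_of_le_ne_top hfH' (measure_mono fun z hz => hz.1)
  have hle := (ENNReal.mul_le_mul_iff_left hlpos.ne' hFfin).1 hfinal
  rw [ENNReal.ofReal_le_ofReal_iff (by positivity)] at hle
  push_cast at hle
  have hn0 : 0 ≤ (1 + (2 : ℝ) ^ u * (A / 2 ^ (q₂ - 6 - r)) ^ (1 / p)) *
      (1 + 625 * (M * (2 : ℝ) ^ (-(p * (u : ℝ)))) / d₀ /
        (lam ^ 2 * θ₂ / (80 * (2 ^ (r + 7) + 2) * κ₀)) ^ 2) := by positivity
  have hlhs : lam / 2 * (m₂ * θ₂) * (2 : ℝ) ^ (p * (u : ℝ)) /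
      (70 * ((2 ^ (r + 7) + 2) * 2 ^ (q₂ - 6 - r))) = lam * (m₂ * θ₂) * (2 : ℝ) ^ (p * (u : ℝ)) /
      (140 * ((2 ^ (r + 7) + 2) * 2 ^ (q₂ - 6 - r))) := by
    field_simp
    ring
  have hrhs : 4 * (M * (2 : ℝ) ^ (-(p * (w : ℝ)))) *
      (Ct * (1 + (2 : ℝ) ^ u * (A / 2 ^ (q₂ - 6 - r)) ^ (1 / p)) *
      (1 + 625 * (M * (2 : ℝ) ^ (-(p * (u : ℝ)))) / d₀ /
        (lam ^ 2 * θ₂ / (80 * (2 ^ (r + 7) + 2) * κ₀)) ^ 2)) * (25 / d₀) ≤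
      100 * (M * (2 : ℝ) ^ (-(p * (w : ℝ))) / d₀) *
      (C₀ * (1 + (2 : ℝ) ^ u * (A / 2 ^ (q₂ - 6 - r)) ^ (1 / p)) *
      (1 + 625 * (M * (2 : ℝ) ^ (-(p * (u : ℝ)))) / d₀ /
        (lam ^ 2 * θ₂ / (80 * (2 ^ (r + 7) + 2) * κ₀)) ^ 2)) := by
    have h1 : Ct * ((1 + (2 : ℝ) ^ u * (A / 2 ^ (q₂ - 6 - r)) ^ (1 / p)) *
      (1 + 625 * (M * (2 : ℝ) ^ (-(p * (u : ℝ)))) / d₀ /
        (lam ^ 2 * θ₂ / (80 * (2 ^ (r + 7) + 2) * κ₀)) ^ 2)) ≤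
      C₀ * ((1 + (2 : ℝ) ^ u * (A / 2 ^ (q₂ - 6 - r)) ^ (1 / p)) *
      (1 + 625 * (M * (2 : ℝ) ^ (-(p * (u : ℝ)))) / d₀ /
        (lam ^ 2 * θ₂ / (80 * (2 ^ (r + 7) + 2) * κ₀)) ^ 2)) :=
      mul_le_mul_of_nonneg_right (by linarith) hn0
    have h2 : 0 ≤ 100 * (M * (2 : ℝ) ^ (-(p * (w : ℝ))) / d₀) := by positivity
    have h3 := mul_le_mul_of_nonneg_left h1 h2
    calc _ = 100 * (M * (2 : ℝ) ^ (-(p * (w : ℝ))) / d₀) *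
        (Ct * ((1 + (2 : ℝ) ^ u * (A / 2 ^ (q₂ - 6 - r)) ^ (1 / p)) *
      (1 + 625 * (M * (2 : ℝ) ^ (-(p * (u : ℝ)))) / d₀ /
        (lam ^ 2 * θ₂ / (80 * (2 ^ (r + 7) + 2) * κ₀)) ^ 2))) := by ring
      _ ≤ _ := h3
      _ = _ := by ring
  rw [hlhs] at hle
  linarith

end Pool.Agent.Helper51.ES
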