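import Pool.Agent.Helper85.ES.StI2
import Pool.Agent.Helper81.EP.M_LXC

/-!
# Project ES (MP_cb927e_an), part I, module OIF: the output of part I
-/

set_option autoImplicit false

open MeasureTheory Set Filter Topology
open scoped ENNReal RealInnerProductSpace

namespace Pool.Agent.Helper51.ES

open Pool.Agent.Helper68.LM (Pl BB Bd Av HL ft fm DQ)
open Pool.Agent.Helper85.ES Pool.Agent.Helper20.RG Pool.Agent.Helper20.RL
open Pool.Agent.Helper68.EP (Fb DQ3 Par Dat Sy q0 q1 DD Fo Rs Gf)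
open Pool.Agent.Helper61.EP (Nn D8 trS Yc)
open Pool.Agent.Helper68.ES (ag Eg th Rc hn Crit cr Lw)
open Pool.Agent.Helper81.EPL (lxc_BM lxc_KA lxc_pow2)

namespace OIF

theorem Crit_mono {p e e' : ℝ} (h : e' ≤ e) {u q i : ℕ} (hc : Crit p e' u q i) : Crit p e u q i := by
  have h1 : e' * u ≤ e * u := mul_le_mul_of_nonneg_right h (Nat.cast_nonneg u)
  exact ⟨hc.1.trans h1, hc.2.trans h1⟩

theorem cr_mono {P : Par} {Δ : Dat} {ct : ℕ → ℕ → Pl} {e e' : ℝ} (h : e' ≤ e) (u : ℕ) (k : ℤ)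
    (E : Set Pl) (x : Pl) : cr P Δ ct e' u k E x ≤ cr P Δ ct e u k E x := by
  unfold cr
  refine Finset.sum_le_sum fun q _ => Finset.sum_le_sum fun i _ => ?_
  by_cases hc : Crit P.p e' u q i
  · rw [if_pos hc, if_pos (Crit_mono h hc)]
  · rw [if_neg hc]
    split_ifs
    · exact mul_nonneg (by positivity) (by unfold hn; positivity)
    · exact le_rfl

theorem ev1 {ε : ℝ} (hε : 0 < ε) : ∃ u₀ : ℕ, ∀ u : ℕ, u₀ ≤ u → 4 * (u : ℝ) ^ 2 ≤ (2 : ℝ) ^ (ε * u) := by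
  have hr : 1 < (2 : ℝ) ^ ε := Real.one_lt_rpow (by norm_num) hε
  have hlim := tendsto_pow_const_div_const_pow_of_one_lt 2 hr
  have hev : ∀ᶠ w : ℕ in atTop, (w : ℝ) ^ 2 / ((2 : ℝ) ^ ε) ^ w < 1 / 4 :=
    hlim.eventually (gt_mem_nhds (by norm_num))
  obtain ⟨u₀, h⟩ := eventually_atTop.1 hev
  refine ⟨u₀, fun u hu => ?_⟩
  have h1 := h u hu
  rw [div_lt_iff₀ (by positivity), ← Real.rpow_natCast ((2 : ℝ) ^ ε), ← Real.rpow_mul (by norm_num)]
    at h1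
  linarith

theorem ev2 {p K : ℝ} (hp : p < 2) : ∃ u₀ : ℕ, ∀ u : ℕ, u₀ ≤ u →
    K * (2 : ℝ) ^ (p * u) ≤ (2 : ℝ) ^ (2 * u) := by
  have hr : 1 < (2 : ℝ) ^ (2 - p) := Real.one_lt_rpow (by norm_num) (by linarith)
  obtain ⟨u₀, h⟩ := eventually_atTop.1
    ((tendsto_pow_atTop_atTop_of_one_lt hr).eventually (eventually_ge_atTop K))
  refine ⟨u₀, fun u hu => ?_⟩
  have h1 := h u hu
  have h2 : ((2 : ℝ) ^ (2 - p)) ^ u * (2 : ℝ) ^ (p * u) = (2 : ℝ) ^ (2 * u) := by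
    rw [← Real.rpow_natCast ((2 : ℝ) ^ (2 - p)), ← Real.rpow_mul (by norm_num),
      ← Real.rpow_add (by norm_num), ← Real.rpow_natCast]
    congr 1
    push_cast
    ring
  rw [← h2]
  exact mul_le_mul_of_nonneg_right h1 (by positivity)

end OIF

open OIF in
/-- OIF: the output of part I -/
theorem hOIF (hMM : Pool.Agent.Helper20.RG.StMM) (hSYS : Pool.Agent.Helper20.RG.StSYS)
    (hLSQ : Pool.Agent.Helper61.EPL.StLSQ) (_hOEX : Pool.Agent.Helper85.ES.StOEX)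
    (hOLV : Pool.Agent.Helper85.ES.StOLV) (hOTR : Pool.Agent.Helper85.ES.StOTR)
    (hOPW : Pool.Agent.Helper85.ES.StOPW) : Pool.Agent.Helper85.ES.StOIF := by
  intro p e hp1 hp2 hpp he
  obtain ⟨e', he'⟩ : ∃ e' : ℝ, e' = min e (1 / 100) := ⟨_, rfl⟩
  have he'0 : 0 < e' := by rw [he']; exact lt_min he (by norm_num)
  have he'e : e' ≤ e := by rw [he']; exact min_le_left _ _
  have he'1 : e' ≤ 1 / 100 := by rw [he']; exact min_le_right _ _
  refine ⟨p - e' / 1000, by linarith, ?_⟩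
  intro φ τ A₁ c P hG hPp hgap hA hs
  subst hPp
  have hSm : Sm P.p P.s e' := ⟨hp1, hp2, hpp, he'0, he'1, hs, P.hsp⟩
  have hp0 : 0 < P.p := by linarith
  have hg0 : 0 < P.g / 16 := by
    have h1 := P.hs
    unfold Pool.Agent.Helper68.EP.Par.g
    linarith
  have hεp : P.ε < P.p := by have := P.hεs; have := P.hε; have := P.hsp; have := P.hs; linarith
  have hApos : 0 < A₁ ^ P.p := Real.rpow_pos_of_pos hA _
  have hn1 := norm_nonneg c
  have hn2 := abs_nonneg (φ 0)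
  obtain ⟨Cf, hCf⟩ : ∃ x : ℝ, x = ‖c‖ + |φ 0| + 3 + A₁ ^ P.p := ⟨_, rfl⟩
  have hCf1 : 1 ≤ Cf := by rw [hCf]; linarith
  obtain ⟨u₁, ε₃, C₁, ε₁, hε₃, hC₁, hε₁, HV⟩ :=
    hOLV P A₁ e' P.ε (P.g / 16) Cf hA.le hSm hCf1 P.hε hg0
  obtain ⟨ε₃', hε₃'⟩ : ∃ x : ℝ, x = min ε₃ (e' / 2) := ⟨_, rfl⟩
  have hε₃'0 : 0 < ε₃' := by rw [hε₃']; exact lt_min hε₃ (by linarith)
  have hε₃'1 : ε₃' ≤ ε₃ := by rw [hε₃']; exact min_le_left _ _
  have hε₃'2 : ε₃' ≤ e' / 2 := by rw [hε₃']; exact min_le_right _ _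
  obtain ⟨u₂, ε₄, hε₄, HW⟩ := hOPW P e' ε₃' Cf hε₃'0
  obtain ⟨C₀, -, HL⟩ := hLSQ P.p hp1 hp2
  obtain ⟨ε₅, hε₅⟩ : ∃ x : ℝ, x = min ε₁ (e' / 2) := ⟨_, rfl⟩
  have hε₅0 : 0 < ε₅ := by rw [hε₅]; exact lt_min hε₁ (by linarith)
  have hε₅1 : ε₅ ≤ ε₁ := by rw [hε₅]; exact min_le_left _ _
  have hε₅2 : ε₅ ≤ e' / 2 := by rw [hε₅]; exact min_le_right _ _
  obtain ⟨u₃, hu₃⟩ := ev1 (ε := ε₅ / 2) (by linarith)
  obtain ⟨u₄, hu₄⟩ := ev2 (p := P.p) (K := 3 + A₁ ^ P.p) hp2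
  obtain ⟨U, hU⟩ : ∃ U : ℕ, U = max (max (max u₁ u₂) (max u₃ u₄)) 1 := ⟨_, rfl⟩
  have hUs : ∀ u, U ≤ u → u₁ ≤ u ∧ u₂ ≤ u ∧ u₃ ≤ u ∧ u₄ ≤ u ∧ 1 ≤ u := by
    intro u hu
    rw [hU] at hu
    simp only [max_le_iff] at hu
    exact ⟨hu.1.1.1, hu.1.1.2, hu.1.2.1, hu.1.2.2, hu.2⟩
  refine ⟨U, ε₄, Cf + 10, max 1 ((C₁ + 2520) * (1 / (1 - (2 : ℝ) ^ (-(ε₅ / 2))))), hε₄, by linarith,
    le_max_left _ _, ?_⟩
  intro f hf hf0
  have hC2 : 0 < C₁ + 2520 := by linarith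
  have key : ∀ (l : ℤ) (u : ℕ), U ≤ u →
      volume {x | Loc (Cf + 10) ((2 : ℝ) ^ (-(P.s * u)) / 4) ((Gf f (l + (u : ℤ))).indicator 1) x ∧
        ∃ k : ℤ, (2 : ℝ) ^ (-(ε₄ * u)) + 4 * cr P (Pool.Agent.Helper68.EP.dat τ) (ce c φ) e u k
          (Gf f (l + (u : ℤ))) x < Lw P c φ τ u k (Gf f (l + (u : ℤ))) x} ≤
      ENNReal.ofReal (C₁ + 2520) * (ENNReal.ofReal ((2 : ℝ) ^ ((P.p - ε₅ / 2) * u)) *
        volume (Gf f (l + (u : ℤ)))) := by
    intro l u hu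
    obtain ⟨h1, h2, h3, h4, hu1⟩ := hUs u hu
    obtain ⟨E, hE⟩ : ∃ E : Set Pl, E = Gf f (l + (u : ℤ)) := ⟨_, rfl⟩
    rw [← hE]
    have hBM : BM E := by rw [hE]; exact lxc_BM hf _
    have hSys := (hSYS φ τ A₁ P.p c hG hgap hA hp0 u hu1).1
    have hSlo : Slo u A₁ P.p ((Pool.Agent.Helper68.EP.dat τ).sl u) := ⟨hSys.slope, hSys.sep⟩
    have hcen : ∀ j < 2 ^ u, ‖ce c φ u j‖ ≤ Cf := fun j hj =>
      (hSys.cen j hj).trans (by rw [hCf]; linarith)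
    have hmm := fun j (hj : j < 2 ^ u) => hMM φ τ A₁ P.p hG hgap hA hp0 u j hu1 hj
    have hK : (KA A₁ P.p u : ℝ) ≤ (3 + A₁ ^ P.p) * (2 : ℝ) ^ (P.p * u) := lxc_KA hA hp1.le u
    have hK4 : KA A₁ P.p u ≤ 2 ^ (2 * u) := by
      have h5 := hK.trans (hu₄ u h4)
      exact_mod_cast h5
    have hex : ∃ Q : ℕ, 1 ≤ Q ∧ KA A₁ P.p u ≤ 2 ^ Q := ⟨2 * u, by omega, hK4⟩
    classical
    obtain ⟨Q, hQ⟩ : ∃ Q : ℕ, Q = Nat.find hex := ⟨_, rfl⟩
    have hQ1 : 1 ≤ Q ∧ KA A₁ P.p u ≤ 2 ^ Q := by rw [hQ]; exact Nat.find_spec hex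
    have hQmin : ∀ q < Q, ¬ (1 ≤ q ∧ KA A₁ P.p u ≤ 2 ^ q) := fun q hq => by
      rw [hQ] at hq
      exact Nat.find_min hex hq
    have hQ2 : Q ≤ 2 * u := by rw [hQ]; exact Nat.find_min' hex ⟨by omega, hK4⟩
    have hu0 : (0 : ℝ) ≤ u := Nat.cast_nonneg u
    have hu1' : (1 : ℝ) ≤ u := by exact_mod_cast hu1
    have hpu1 : (1 : ℝ) ≤ (2 : ℝ) ^ (P.p * u) := Real.one_le_rpow (by norm_num) (by positivity)
    have hq0 : ((q0 P u : ℕ) : ℝ) ≤ (P.p - P.ε) * u := by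
      unfold Pool.Agent.Helper68.EP.q0
      apply Nat.floor_le
      have : 0 ≤ P.p - P.ε := by linarith
      positivity
    have hq2 : ∀ q : ℕ, (q < Q ∨ q < q0 P u) → (2 : ℝ) ^ q ≤ Cf * (2 : ℝ) ^ (P.p * u) ∧ q < 2 * u := by
      intro q hq
      rcases hq with hq | hq
      · refine ⟨?_, by omega⟩
        rcases Nat.eq_zero_or_pos q with h0 | h0
        · rw [h0, pow_zero]
          nlinarith
        · have h5 := hQmin q hq
          have h6 : 2 ^ q < KA A₁ P.p u := by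
            by_contra h7
            exact h5 ⟨h0, not_lt.1 h7⟩
          have h7 : (2 : ℝ) ^ q < (KA A₁ P.p u : ℝ) := by exact_mod_cast h6
          refine h7.le.trans (hK.trans ?_)
          apply mul_le_mul_of_nonneg_right _ (by positivity)
          rw [hCf]
          linarith
      · have h5 : (q : ℝ) < (q0 P u : ℝ) := by exact_mod_cast hq
        have h6 : (q : ℝ) < (P.p - P.ε) * u := h5.trans_le hq0
        have h7 : (P.p - P.ε) * u ≤ P.p * u := by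
          apply mul_le_mul_of_nonneg_right _ hu0
          linarith [P.hε]
        refine ⟨?_, ?_⟩
        · have h8 : (2 : ℝ) ^ q ≤ (2 : ℝ) ^ (P.p * u) := by
            rw [← Real.rpow_natCast]
            exact Real.rpow_le_rpow_of_exponent_le (by norm_num) (by linarith)
          nlinarith
        · have h8 : (q : ℝ) < 2 * u := by nlinarith
          exact_mod_cast h8
    -- one pair
    have hB : ∀ q i : ℕ, (q < Q ∨ q < q0 P u) → ¬ Crit P.p e' u q i →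
        (P.g / 16 * u ≤ i ∨ (q : ℝ) ≤ (P.p - P.ε) * u) →
        volume {x | ∃ k : ℤ, (2 : ℝ) ^ ((i : ℝ) - ε₃' * u) ≤
          hn P (Pool.Agent.Helper68.EP.dat τ) (ce c φ) u q i k E x} ≤
        ENNReal.ofReal ((C₁ + 2520) * (2 : ℝ) ^ ((P.p - ε₅) * u)) * volume E := by
      intro q i hq hcr hor
      have hun : {x | ∃ k : ℤ, (2 : ℝ) ^ ((i : ℝ) - ε₃' * u) ≤
          hn P (Pool.Agent.Helper68.EP.dat τ) (ce c φ) u q i k E x} =
          ⋃ k : ℤ, {x | (2 : ℝ) ^ ((i : ℝ) - ε₃' * u) ≤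
          hn P (Pool.Agent.Helper68.EP.dat τ) (ce c φ) u q i k E x} := by
        ext x
        simp only [mem_iUnion]
        rfl
      rw [hun]
      refine (measure_iUnion_le _).trans ?_
      rcases lt_or_ge (q : ℝ) ((P.p - 1 - e') * u) with hlt | hge
      · refine (hOTR P e' ε₃' (Pool.Agent.Helper68.EP.dat τ) (ce c φ) u q i E he'0 hε₃'0 hε₃'2 hu1 hlt
          hBM).trans ?_
        gcongr ENNReal.ofReal ?_ * volume E
        have h5 := lxc_pow2 (p := P.p) hε₅2 u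
        have h6 : 0 < (2 : ℝ) ^ ((P.p - ε₅) * u) := by positivity
        nlinarith
      · have h5 := HV (Pool.Agent.Helper68.EP.dat τ) (ce c φ) u q i E h1 hSlo
          (fun j hj => ⟨hcen j hj, (hmm j hj).2.2.2.2.1⟩) (hq2 q hq).1 hge hcr hor hBM
        refine le_trans (ENNReal.tsum_le_tsum fun k => measure_mono ?_) (h5.trans ?_)
        · intro x hx
          have h6 : (2 : ℝ) ^ ((i : ℝ) - ε₃' * u) ≤
            hn P (Pool.Agent.Helper68.EP.dat τ) (ce c φ) u q i k E x := hx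
          have h7 := mul_le_mul_of_nonneg_right hε₃'1 hu0
          have h8 : (2 : ℝ) ^ ((i : ℝ) - ε₃ * u) ≤ (2 : ℝ) ^ ((i : ℝ) - ε₃' * u) :=
            Real.rpow_le_rpow_of_exponent_le (by norm_num) (by linarith)
          exact h8.trans h6
        · gcongr ENNReal.ofReal ?_ * volume E
          have h5 := lxc_pow2 (p := P.p) hε₅1 u
          have h6 : 0 < (2 : ℝ) ^ ((P.p - ε₅) * u) := by positivity
          nlinarith
    -- all pairs
    have hsub : {x | Loc (Cf + 10) ((2 : ℝ) ^ (-(P.s * u)) / 4) (E.indicator 1) x ∧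
        ∃ k : ℤ, (2 : ℝ) ^ (-(ε₄ * u)) + 4 * cr P (Pool.Agent.Helper68.EP.dat τ) (ce c φ) e u k E x <
          Lw P c φ τ u k E x} ⊆
        ⋃ a ∈ (Finset.range (2 * u)) ×ˢ (Finset.range (2 * u)),
          {x | ((a.1 < Q ∨ a.1 < q0 P u) ∧ ¬ Crit P.p e' u a.1 a.2 ∧
            (P.g / 16 * u ≤ a.2 ∨ (a.1 : ℝ) ≤ (P.p - P.ε) * u)) ∧ ∃ k : ℤ,
            (2 : ℝ) ^ ((a.2 : ℝ) - ε₃' * u) ≤
              hn P (Pool.Agent.Helper68.EP.dat τ) (ce c φ) u a.1 a.2 k E x} := by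
      rintro x ⟨hx, k, hk⟩
      by_contra hcon
      have h5 := HW φ τ c u Q k E x hG h2
        (fun j hj => ⟨hcen j hj, (hmm j hj).2.2.2.2.1, (hmm j hj).2.2.2.2.2.1.trans hQ1.2⟩)
        hQ1.1 hQ2 hBM hx
        (fun q i hq hi hcr hor => by
          by_contra h6
          apply hcon
          refine mem_iUnion₂.2 ⟨(q, i), Finset.mem_product.2 ⟨Finset.mem_range.2 (hq2 q hq).2,
            Finset.mem_range.2 hi⟩, ⟨⟨hq, hcr, hor⟩, k, not_lt.1 h6⟩⟩)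
      have h6 := cr_mono (P := P) (Δ := Pool.Agent.Helper68.EP.dat τ) (ct := ce c φ) he'e u k E x
      have h7 : cr P (Pool.Agent.Helper61.EP.dat τ) (ce c φ) e' u k E x =
        cr P (Pool.Agent.Helper68.EP.dat τ) (ce c φ) e' u k E x := rfl
      rw [h7] at h5
      linarith
    calc volume {x | Loc (Cf + 10) ((2 : ℝ) ^ (-(P.s * u)) / 4) (E.indicator 1) x ∧
        ∃ k : ℤ, (2 : ℝ) ^ (-(ε₄ * u)) + 4 * cr P (Pool.Agent.Helper68.EP.dat τ) (ce c φ) e u k E x <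
          Lw P c φ τ u k E x}
        ≤ ∑ a ∈ (Finset.range (2 * u)) ×ˢ (Finset.range (2 * u)),
          volume {x | ((a.1 < Q ∨ a.1 < q0 P u) ∧ ¬ Crit P.p e' u a.1 a.2 ∧
            (P.g / 16 * u ≤ a.2 ∨ (a.1 : ℝ) ≤ (P.p - P.ε) * u)) ∧ ∃ k : ℤ,
            (2 : ℝ) ^ ((a.2 : ℝ) - ε₃' * u) ≤
              hn P (Pool.Agent.Helper68.EP.dat τ) (ce c φ) u a.1 a.2 k E x} :=
          (measure_mono hsub).trans (measure_biUnion_finset_le _ _)
      _ ≤ ∑ a ∈ (Finset.range (2 * u)) ×ˢ (Finset.range (2 * u)),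
          ENNReal.ofReal ((C₁ + 2520) * (2 : ℝ) ^ ((P.p - ε₅) * u)) * volume E := by
          refine Finset.sum_le_sum fun a _ => ?_
          by_cases hc : (a.1 < Q ∨ a.1 < q0 P u) ∧ ¬ Crit P.p e' u a.1 a.2 ∧
            (P.g / 16 * u ≤ a.2 ∨ (a.1 : ℝ) ≤ (P.p - P.ε) * u)
          · refine le_trans (measure_mono ?_) (hB a.1 a.2 hc.1 hc.2.1 hc.2.2)
            exact fun x hx => hx.2
          · refine le_trans (measure_mono (t := ∅) fun x hx => hc hx.1) ?_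
            rw [measure_empty]
            exact zero_le
      _ = ENNReal.ofReal (4 * (u : ℝ) ^ 2) *
          (ENNReal.ofReal ((C₁ + 2520) * (2 : ℝ) ^ ((P.p - ε₅) * u)) * volume E) := by
          rw [Finset.sum_const, Finset.card_product, Finset.card_range, nsmul_eq_mul]
          congr 1
          rw [← ENNReal.ofReal_natCast]
          congr 1
          push_cast
          ring
      _ ≤ ENNReal.ofReal ((2 : ℝ) ^ (ε₅ / 2 * u)) *
          (ENNReal.ofReal ((C₁ + 2520) * (2 : ℝ) ^ ((P.p - ε₅) * u)) * volume E) := by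
          gcongr
          exact hu₃ u h3
      _ = ENNReal.ofReal (C₁ + 2520) * (ENNReal.ofReal ((2 : ℝ) ^ ((P.p - ε₅ / 2) * u)) *
          volume E) := by
          rw [← mul_assoc, ← mul_assoc, ← ENNReal.ofReal_mul (by positivity),
            ← ENNReal.ofReal_mul hC2.le]
          congr 2
          have h5 : (2 : ℝ) ^ ((P.p - ε₅ / 2) * u) =
              (2 : ℝ) ^ (ε₅ / 2 * u) * (2 : ℝ) ^ ((P.p - ε₅) * u) := by
            rw [← Real.rpow_add (by norm_num)]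
            congr 1
            ring
          rw [h5]
          ring
  calc _ ≤ ∑' l : ℤ, ENNReal.ofReal ((2 : ℝ) ^ (P.p * l)) * ∑' u : ℕ,
        ENNReal.ofReal (C₁ + 2520) * (ENNReal.ofReal ((2 : ℝ) ^ ((P.p - ε₅ / 2) * u)) *
          volume (Gf f (l + (u : ℤ)))) := by
        refine ENNReal.tsum_le_tsum fun l => ?_
        refine mul_le_mul_right ?_ _
        refine (measure_mono (t := ⋃ u : ℕ, {x | U ≤ u ∧
          (Loc (Cf + 10) ((2 : ℝ) ^ (-(P.s * u)) / 4) ((Gf f (l + (u : ℤ))).indicator 1) x ∧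
          ∃ k : ℤ, (2 : ℝ) ^ (-(ε₄ * u)) + 4 * cr P (Pool.Agent.Helper68.EP.dat τ) (ce c φ) e u k
          (Gf f (l + (u : ℤ))) x < Lw P c φ τ u k (Gf f (l + (u : ℤ))) x)}) ?_).trans ?_
        · rintro x ⟨u, hu, hx⟩
          exact mem_iUnion.2 ⟨u, hu, hx⟩
        · refine (measure_iUnion_le _).trans (ENNReal.tsum_le_tsum fun u => ?_)
          by_cases hu : U ≤ u
          · refine (measure_mono ?_).trans (key l u hu)
            rintro x ⟨_, hx⟩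
            exact hx
          · refine le_trans (measure_mono (t := ∅) fun x hx => hu hx.1) ?_
            rw [measure_empty]
            exact zero_le
    _ = ENNReal.ofReal (C₁ + 2520) * ∑' l : ℤ, ENNReal.ofReal ((2 : ℝ) ^ (P.p * l)) * ∑' u : ℕ,
        ENNReal.ofReal ((2 : ℝ) ^ ((P.p - ε₅ / 2) * u)) * volume (Gf f (l + (u : ℤ))) := by
        rw [← ENNReal.tsum_mul_left]
        refine tsum_congr fun l => ?_
        rw [ENNReal.tsum_mul_left]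
        ring
    _ ≤ ENNReal.ofReal (C₁ + 2520) * (ENNReal.ofReal (1 / (1 - (2 : ℝ) ^ (-(ε₅ / 2)))) *
          ∫⁻ x, ENNReal.ofReal (f x) ^ P.p) := by
        gcongr
        exact (HL f hf.1 hf0).2.2.2 (ε₅ / 2) (by linarith)
    _ ≤ _ := by
        rw [← mul_assoc, ← ENNReal.ofReal_mul hC2.le]
        gcongr
        exact le_max_right _ _

end Pool.Agent.Helper51.ES
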